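import Pool.Agent.H785Z.Gad.C

set_option autoImplicit false
set_option linter.unusedVariables false

namespace Pool.Agent.H785Z.Gad

open Pool.Agent.H655Z.TD

/-- the root-respecting game inside two gadgets -/
def IE (F i0 : ℕ) (nL nR : ℕ → ℕ → ℕ) : ℕ → List (GX × GX) → Prop
  | 0, m => IPI m
  | k + 1, m => IPI m ∧ (∀ x, ok F i0 nL x → ∃ y, ok F i0 nR y ∧ IE F i0 nL nR k ((x, y) :: m)) ∧
      (∀ y, ok F i0 nR y → ∃ x, ok F i0 nL x ∧ IE F i0 nL nR k ((x, y) :: m))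

variable {F i0 : ℕ} {nL nR : ℕ → ℕ → ℕ}

theorem IE.ipi {k : ℕ} {m : List (GX × GX)} (h : IE F i0 nL nR k m) : IPI m := by
  cases k
  · exact h
  · exact h.1

theorem IE.pred {k : ℕ} : ∀ {m : List (GX × GX)}, IE F i0 nL nR (k + 1) m → IE F i0 nL nR k m := by
  induction k with
  | zero => intro m h; exact h.1
  | succ k ih =>
    intro m h
    refine ⟨h.1, fun x hx => ?_, fun y hy => ?_⟩
    · obtain ⟨y, h1, h2⟩ := h.2.1 x hx; exact ⟨y, h1, ih h2⟩
    · obtain ⟨x, h1, h2⟩ := h.2.2 y hy; exact ⟨x, h1, ih h2⟩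

theorem IE.sw {k : ℕ} : ∀ {m : List (GX × GX)}, IE F i0 nL nR k m → IE F i0 nR nL k (sw m) := by
  induction k with
  | zero => intro m h; exact IPI.sw h
  | succ k ih =>
    intro m h
    refine ⟨h.1.sw, fun x hx => ?_, fun y hy => ?_⟩
    · obtain ⟨y, h1, h2⟩ := h.2.2 x hx; exact ⟨y, h1, ih h2⟩
    · obtain ⟨x, h1, h2⟩ := h.2.1 y hy; exact ⟨x, h1, ih h2⟩

def Hyp (i0 J : ℕ) (nL nR : ℕ → ℕ → ℕ) : Prop :=
  (∀ a c, nL a c = nR a c ∨ (J ≤ nL a c + i0 + 2 ∧ J ≤ nR a c + i0 + 2)) ∧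
    (∀ a, J ≤ nL a 1 + nL a 2) ∧ (∀ a, J ≤ nR a 1 + nR a 2)

theorem Hyp.symm {J : ℕ} (h : Hyp i0 J nL nR) : Hyp i0 J nR nL :=
  ⟨fun a c => (h.1 a c).imp Eq.symm And.symm, h.2.2, h.2.1⟩

def Inv (F i0 J : ℕ) (nL nR : ℕ → ℕ → ℕ) (k : ℕ) (m : List (GX × GX)) : Prop :=
  Std m ∧ OK F i0 nL nR m ∧ k + m.length ≤ J ∧
    ((∃ p ∈ m, col p.1 ≠ col p.2) → k + m.countP Mc ≤ i0 + 2)

theorem countP_Mc_sw {m : List (GX × GX)} (h : Std m) : (sw m).countP Mc = m.countP Mc := by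
  unfold sw
  rw [List.countP_map]
  apply List.countP_congr
  intro p hp
  simp only [Function.comp, Mc, Prod.fst_swap, Prod.snd_swap, decide_eq_true_eq, oid_none,
    (h.1 p hp).root_iff, ne_comm]

theorem Inv.sw {J k : ℕ} {m : List (GX × GX)} (h : Inv F i0 J nL nR k m) :
    Inv F i0 J nR nL k (sw m) := by
  refine ⟨h.1.sw, h.2.1.sw, by rw [length_sw]; exact h.2.2.1, ?_⟩
  rintro ⟨p, hp, e⟩
  rw [countP_Mc_sw h.1]
  exact h.2.2.2 ⟨_, mem_sw.1 hp, e.symm⟩

theorem Inv.step {J k : ℕ} {m : List (GX × GX)} (h : Inv F i0 J nL nR (k + 1) m) {x y : GX}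
    (hs : Std ((x, y) :: m)) (hx : ok F i0 nL x) (hy : ok F i0 nR y)
    (hc : col x ≠ col y → k + 1 + m.countP Mc ≤ i0 + 2) : Inv F i0 J nL nR k ((x, y) :: m) := by
  refine ⟨hs, h.2.1.cons hx hy, by have := h.2.2.1; simp only [List.length_cons]; omega, ?_⟩
  rintro ⟨p, hp, e⟩
  have h1 : k + 1 + m.countP Mc ≤ i0 + 2 := by
    rcases List.mem_cons.1 hp with rfl | hp
    · exact hc e
    · exact h.2.2.2 ⟨p, hp, e⟩
  rw [List.countP_cons]
  split_ifs <;> omega

theorem forth (hi0 : 0 < i0) {J k : ℕ} (hyp : Hyp i0 J nL nR)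
    (ih : ∀ m, Inv F i0 J nL nR k m → IE F i0 nL nR k m) {m : List (GX × GX)}
    (h : Inv F i0 J nL nR (k + 1) m) (x : GX) (hx : ok F i0 nL x) :
    ∃ y, ok F i0 nR y ∧ IE F i0 nL nR k ((x, y) :: m) := by
  obtain ⟨hs, hok, hlen, hmis⟩ := id h
  rcases x with _ | ⟨a, c, t, P⟩
  · exact ⟨.root, trivial, ih _ (h.step (ext_root hs) trivial trivial (by simp))⟩
  by_cases ht : ∃ q ∈ m, oid q.1 = some (a, c, t)
  · obtain ⟨q, hq, hq1⟩ := ht
    obtain ⟨c', t', hq2, ⟨P', h1, h2⟩ | hc⟩ := ext_touched hs hok hx hq hq1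
    · refine ⟨_, h1, ih _ (h.step h2 hx h1 fun e => hmis ⟨q, hq, ?_⟩)⟩
      rw [col_of_oid hq1, col_of_oid hq2]; exact e
    · have hcc := crit_col hs hok hx hq hq1 hq2 hc
      have h1 := count_crit hs hq hq1 hq2 hcc hc
      have h2 := hmis ⟨q, hq, by rw [col_of_oid hq1, col_of_oid hq2]; omega⟩
      rcases k with _ | _ | k
      · exact end1 hs hok (by have := hyp.2.2 0; omega) hq hq1 hq2 hcc hc (by omega)
      · exact end2 hi0 hs hok (fun a => by have := hyp.2.1 a; omega)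
          (fun a => by have := hyp.2.2 a; omega) hq hx hq1 hq2 hcc hc (by omega)
      · omega
  · push Not at ht
    by_cases hl : k + 1 + m.countP Mc ≤ i0 + 2
    · obtain ⟨c', t', h1, h2, h3⟩ := fresh_obj (m := m) nR a (by have := hyp.2.2 a; omega)
      have hy : ok F i0 nR (.obj a c' t' (role P)) := ⟨hx.1, h1, h2, okP_role hi0 hx.2.2.2⟩
      exact ⟨_, hy, ih _ (h.step (ext_new hs P ht h3) hx hy fun _ => hl)⟩
    · have hcol : ∀ p ∈ m, col p.1 = col p.2 := fun p hp => by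
        by_contra e
        exact hl (hmis ⟨p, hp, e⟩)
      obtain ⟨t', h2, h3⟩ : ∃ t' < nR a c, ∀ p ∈ m, oid p.2 ≠ some (a, c, t') := by
        rcases hyp.1 a c with e | e
        · obtain ⟨t', h2, h3⟩ := fresh m (fun p => ∃ s, oid p.1 = some (a, c, s))
            (fun p => tix p.1) (fun p => tix p.2) (A := nL a c) (B := nR a c) (i := t)
            (fun p hp r hr ⟨s, h4⟩ ⟨s', h5⟩ e1 => by
              have e2 : oid p.1 = oid r.1 := by
                obtain ⟨_, e3⟩ := oid_some.1 h4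
                obtain ⟨_, e4⟩ := oid_some.1 h5
                simp only [e3, e4, tix] at e1 ⊢
                rw [e1]; rfl
              have e3 := (hs.2 p hp r hr).1.1 e2
              revert e3
              cases p.2 <;> cases r.2 <;> simp only [oid, tix] <;> grind)
            (fun p hp ⟨s, h4⟩ => by
              obtain ⟨_, e3⟩ := oid_some.1 h4
              have h5 := (hok p hp).1
              have h6 := ht p hp
              rw [e3] at h5 h6 ⊢
              exact ⟨h5.2.2.1, fun e4 => h6 (by rw [← e4]; rfl)⟩)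
            hx.2.2.1 e.le
          refine ⟨t', h2, fun p hp e1 => h3 p hp ?_ ?_⟩
          · obtain ⟨R, e3⟩ := oid_some.1 e1
            have h4 := hs.1 p hp
            have h5 := hcol p hp
            rw [e3] at h4 h5
            rcases e4 : p.1 with _ | ⟨a1, c1, t1, P1⟩
            · rw [e4] at h4; exact h4.elim
            · rw [e4] at h4 h5
              exact ⟨t1, by rw [h4.1, show c1 = c from h5]; rfl⟩
          · obtain ⟨R, e3⟩ := oid_some.1 e1
            rw [e3]; rfl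
        · have h0 := List.length_eq_countP_add_countP Mc (l := m)
          obtain ⟨t', h2, h3⟩ := fresh' m (fun p => decide (¬ Mc p = true)) (fun p => tix p.2)
            (B := nR a c) (by omega)
          refine ⟨t', h2, fun p hp e1 => ?_⟩
          obtain ⟨R, e3⟩ := oid_some.1 e1
          refine h3 p hp ?_ (by rw [e3]; rfl)
          have h4 : p.1 ≠ .root := fun e4 => by
            have := (hs.1 p hp).root_iff.1 e4
            rw [e3] at this; simp at this
          simp [Mc, oid_none, h4, hcol p hp]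
      have hy : ok F i0 nR (.obj a c t' (role P)) := ⟨hx.1, hx.2.1, h2, okP_role hi0 hx.2.2.2⟩
      exact ⟨_, hy, ih _ (h.step (ext_new hs P ht h3) hx hy fun e => absurd rfl e)⟩

theorem ie_of_inv (hi0 : 0 < i0) {J : ℕ} (k : ℕ) : ∀ (nL nR : ℕ → ℕ → ℕ), Hyp i0 J nL nR →
    ∀ m, Inv F i0 J nL nR k m → IE F i0 nL nR k m := by
  induction k with
  | zero => intro nL nR _ m h; exact h.1.ipi
  | succ k ih =>
    intro nL nR hyp m h
    refine ⟨h.1.ipi, forth hi0 hyp (ih nL nR hyp) h, fun y hy => ?_⟩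
    obtain ⟨x, h1, h2⟩ := forth hi0 hyp.symm (ih nR nL hyp.symm) h.sw y hy
    have := h2.sw
    rw [sw_cons, sw_sw] at this
    exact ⟨x, h1, this⟩

theorem ie_start (hi0 : 0 < i0) {J : ℕ} (hyp : Hyp i0 J nL nR) : IE F i0 nL nR J [] :=
  ie_of_inv hi0 J nL nR hyp [] ⟨⟨by simp, by simp⟩, by simp [OK], by simp, by simp⟩

end Pool.Agent.H785Z.Gad
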