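import Pool.Agent.H655Z.TD.Walk

set_option autoImplicit false
set_option linter.unusedVariables false
set_option linter.unnecessarySeqFocus false

namespace Pool.Agent.H785Z.Gad

open Pool.Agent.H655Z.TD

def role : Part → Part
  | .leg _ e => .leg 0 e
  | p => p

def oid : GX → Option (ℕ × ℕ × ℕ)
  | .root => none
  | .obj a c t _ => some (a, c, t)

def lid : GX → Option ℕ
  | .obj _ _ _ (.leg i _) => some i
  | _ => none

def col : GX → ℕ
  | .root => 0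
  | .obj _ c _ _ => c

def tix : GX → ℕ
  | .root => 0
  | .obj _ _ t _ => t

def Sh : GX → GX → Prop
  | .root, .root => True
  | .obj a _ _ p, .obj a' _ _ p' => a = a' ∧ role p = role p'
  | _, _ => False

def adjX (x y : GX) : Prop := (x ≠ .root ∧ gpar x = y) ∨ (y ≠ .root ∧ gpar y = x)

def ok (F i0 : ℕ) (n : ℕ → ℕ → ℕ) : GX → Prop
  | .root => True
  | .obj a c t p => a ≤ F ∧ c < 3 ∧ t < n a c ∧ okP i0 a c p

def PIp (p q : GX × GX) : Prop := (p.1 = q.1 ↔ p.2 = q.2) ∧ (adjX p.1 q.1 ↔ adjX p.2 q.2)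

def IPI (m : List (GX × GX)) : Prop :=
  (∀ p ∈ m, p.1 = .root ↔ p.2 = .root) ∧ ∀ p ∈ m, ∀ q ∈ m, PIp p q

def Cp (p q : GX × GX) : Prop :=
  (oid p.1 = oid q.1 ↔ oid p.2 = oid q.2) ∧
    (oid p.1 = oid q.1 → (lid p.1 = lid q.1 ↔ lid p.2 = lid q.2))

def Std (m : List (GX × GX)) : Prop := (∀ p ∈ m, Sh p.1 p.2) ∧ ∀ p ∈ m, ∀ q ∈ m, Cp p q

def sw (m : List (GX × GX)) : List (GX × GX) := m.map Prod.swap

theorem mem_sw {m : List (GX × GX)} {p : GX × GX} : p ∈ sw m ↔ p.swap ∈ m := by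
  unfold sw
  rw [List.mem_map]
  constructor
  · rintro ⟨q, hq, rfl⟩; simpa using hq
  · intro h; exact ⟨_, h, by simp⟩

theorem sw_cons (x y : GX) (m : List (GX × GX)) : sw ((x, y) :: m) = (y, x) :: sw m := rfl

theorem sw_sw (m : List (GX × GX)) : sw (sw m) = m := by simp [sw]

theorem length_sw (m : List (GX × GX)) : (sw m).length = m.length := by simp [sw]

theorem adjX_symm {x y : GX} : adjX x y ↔ adjX y x := or_comm

theorem adjX_irrefl (x : GX) : ¬ adjX x x := by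
  rintro (h | h) <;> exact gpar_ne h.1 h.2

theorem PIp.symm {p q : GX × GX} (h : PIp p q) : PIp q p :=
  ⟨by rw [eq_comm, h.1, eq_comm], by rw [adjX_symm, h.2, adjX_symm]⟩

theorem PIp.refl (p : GX × GX) : PIp p p := ⟨by simp, by simp [adjX_irrefl]⟩

theorem Cp.symm {p q : GX × GX} (h : Cp p q) : Cp q p :=
  ⟨by rw [eq_comm, h.1, eq_comm], fun e => by rw [eq_comm, h.2 e.symm, eq_comm]⟩

theorem Cp.refl (p : GX × GX) : Cp p p := ⟨by simp, by simp⟩

theorem Sh.symm {x y : GX} (h : Sh x y) : Sh y x := by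
  cases x <;> cases y <;> simp only [Sh] at h ⊢
  exact ⟨h.1.symm, h.2.symm⟩

theorem IPI.sw {m : List (GX × GX)} (h : IPI m) : IPI (sw m) :=
  ⟨fun p hp => (h.1 _ (mem_sw.1 hp)).symm, fun p hp q hq =>
    ⟨(h.2 _ (mem_sw.1 hp) _ (mem_sw.1 hq)).1.symm, (h.2 _ (mem_sw.1 hp) _ (mem_sw.1 hq)).2.symm⟩⟩

theorem IPI.of_sw {m : List (GX × GX)} (h : IPI (Gad.sw m)) : IPI m := by
  have := h.sw; rwa [sw_sw] at this

theorem Std.sw {m : List (GX × GX)} (h : Std m) : Std (sw m) := by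
  refine ⟨fun p hp => (h.1 _ (mem_sw.1 hp)).symm, fun p hp q hq => ?_⟩
  have := h.2 _ (mem_sw.1 hp) _ (mem_sw.1 hq)
  exact ⟨this.1.symm, fun e => (this.2 (this.1.2 e)).symm⟩

theorem IPI.cons {m : List (GX × GX)} (h : IPI m) {p : GX × GX} (h1 : p.1 = .root ↔ p.2 = .root)
    (h2 : ∀ q ∈ m, PIp p q) : IPI (p :: m) := by
  refine ⟨fun q hq => ?_, fun q hq r hr => ?_⟩
  · rcases List.mem_cons.1 hq with rfl | hq
    · exact h1
    · exact h.1 q hq
  · rcases List.mem_cons.1 hq with rfl | hq' <;> rcases List.mem_cons.1 hr with rfl | hr'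
    · exact PIp.refl _
    · exact h2 r hr'
    · exact (h2 q hq').symm
    · exact h.2 q hq' r hr'

theorem Std.cons {m : List (GX × GX)} (h : Std m) {p : GX × GX} (h1 : Sh p.1 p.2)
    (h2 : ∀ q ∈ m, Cp p q) : Std (p :: m) := by
  refine ⟨fun q hq => ?_, fun q hq r hr => ?_⟩
  · rcases List.mem_cons.1 hq with rfl | hq
    · exact h1
    · exact h.1 q hq
  · rcases List.mem_cons.1 hq with rfl | hq' <;> rcases List.mem_cons.1 hr with rfl | hr'
    · exact Cp.refl _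
    · exact h2 r hr'
    · exact (h2 q hq').symm
    · exact h.2 q hq' r hr'

theorem IPI.dup {m : List (GX × GX)} (h : IPI m) {p : GX × GX} (hp : p ∈ m) : IPI (p :: m) :=
  h.cons (h.1 p hp) (fun q hq => h.2 p hp q hq)

theorem role_eq {p p' : Part} (h : role p = role p') :
    (∃ i i' e, p = .leg i e ∧ p' = .leg i' e) ∨ (p = p' ∧ ∀ i e, p ≠ .leg i e) := by
  cases p <;> cases p' <;> simp_all [role]

theorem par_iff {x x' y y' : GX} (hx : Sh x x') (hy : Sh y y') (h : Cp (x, x') (y, y')) :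
    (x ≠ .root ∧ gpar x = y) → (x' ≠ .root ∧ gpar x' = y') := by
  rintro ⟨h1, h2⟩
  obtain ⟨h3, h4⟩ := h
  cases x with
  | root => exact absurd rfl h1
  | obj a c t p =>
    cases x' with
    | root => exact hx.elim
    | obj a' c' t' p' =>
      refine ⟨by simp, ?_⟩
      obtain ⟨rfl, hp⟩ := hx
      subst h2
      rcases role_eq hp with ⟨i, i', e, rfl, rfl⟩ | ⟨rfl, -⟩
      · cases e <;> cases y' <;> simp only [gpar, Sh] at hy ⊢
        all_goals
          obtain ⟨rfl, hq⟩ := hy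
          rcases role_eq hq with ⟨j, j', e', h5, rfl⟩ | ⟨rfl, h5⟩ <;> simp_all [oid, lid, gpar]
      · rcases p with _ | _ | _ | ⟨i, _ | _⟩ | ⟨_ | ⟨j, l⟩⟩ <;> cases y' <;>
          simp only [gpar, Sh] at hy ⊢
        all_goals
          obtain ⟨rfl, hq⟩ := hy
          rcases role_eq hq with ⟨j, j', e', h5, rfl⟩ | ⟨rfl, h5⟩ <;> simp_all [oid, lid, gpar]

theorem eq_imp {x x' y y' : GX} (hx : Sh x x') (hy : Sh y y') (h : Cp (x, x') (y, y')) :
    x = y → x' = y' := by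
  rintro rfl
  obtain ⟨h3, h4⟩ := h
  cases x <;> cases x' <;> cases y' <;> simp only [Sh] at hx hy ⊢
  obtain ⟨rfl, hp⟩ := hx
  obtain ⟨rfl, hq⟩ := hy
  rcases role_eq hp with ⟨i, i', e, rfl, rfl⟩ | ⟨rfl, h5⟩ <;>
    rcases role_eq hq with ⟨j, j', e', h6, rfl⟩ | ⟨rfl, h6⟩ <;> simp_all [oid, lid]

theorem Cp.swap {x x' y y' : GX} (h : Cp (x, x') (y, y')) : Cp (x', x) (y', y) :=
  ⟨h.1.symm, fun e => (h.2 (h.1.2 e)).symm⟩

theorem pip_of {p q : GX × GX} (hp : Sh p.1 p.2) (hq : Sh q.1 q.2) (h : Cp p q) : PIp p q := by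
  obtain ⟨x, x'⟩ := p
  obtain ⟨y, y'⟩ := q
  refine ⟨⟨eq_imp hp hq h, eq_imp hp.symm hq.symm h.swap⟩, ?_⟩
  exact ⟨Or.imp (par_iff hp hq h) (par_iff hq hp h.symm),
    Or.imp (par_iff hp.symm hq.symm h.swap) (par_iff hq.symm hp.symm h.symm.swap)⟩

theorem Sh.root_iff {x y : GX} (h : Sh x y) : x = .root ↔ y = .root := by
  cases x <;> cases y <;> simp_all [Sh]

theorem Std.ipi {m : List (GX × GX)} (h : Std m) : IPI m :=
  ⟨fun p hp => (h.1 p hp).root_iff, fun p hp q hq => pip_of (h.1 p hp) (h.1 q hq) (h.2 p hp q hq)⟩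

/-- vertices of different objects are neither equal nor adjacent -/
theorem not_adj_of_oid {x y : GX} (hx : x ≠ .root) (hy : y ≠ .root) (h : oid x ≠ oid y) :
    ¬ adjX x y := by
  rcases x with _ | ⟨a, c, t, _ | _ | _ | ⟨i, _ | _⟩ | ⟨_ | ⟨j, l⟩⟩⟩ <;>
  rcases y with _ | ⟨a', c', t', _ | _ | _ | ⟨i', _ | _⟩ | ⟨_ | ⟨j', l'⟩⟩⟩ <;>
    simp_all [adjX, gpar, oid] <;> grind

theorem adj_root {x : GX} : adjX x .root ↔ ∃ a c t, x = .obj a c t .s1 := by
  rcases x with _ | ⟨a, c, t, _ | _ | _ | ⟨i, _ | _⟩ | ⟨_ | ⟨j, l⟩⟩⟩ <;> simp [adjX, gpar]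

theorem adj_legF {a c t i : ℕ} {y : GX} : adjX (.obj a c t (.leg i false)) y ↔
    y = .obj a c t .g ∨ y = .obj a c t (.leg i true) := by
  rcases y with _ | ⟨a', c', t', _ | _ | _ | ⟨i', _ | _⟩ | ⟨_ | ⟨j', l'⟩⟩⟩ <;>
    simp [adjX, gpar] <;> grind

theorem adj_legT {a c t i : ℕ} {y : GX} : adjX (.obj a c t (.leg i true)) y ↔
    y = .obj a c t (.leg i false) := by
  rcases y with _ | ⟨a', c', t', _ | _ | _ | ⟨i', _ | _⟩ | ⟨_ | ⟨j', l'⟩⟩⟩ <;>
    simp [adjX, gpar] <;> grind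

theorem adj_s2 {a c t : ℕ} {y : GX} : adjX (.obj a c t .s2) y ↔
    y = .obj a c t .g ∨ y = .obj a c t .s1 := by
  rcases y with _ | ⟨a', c', t', _ | _ | _ | ⟨i', _ | _⟩ | ⟨_ | ⟨j', l'⟩⟩⟩ <;>
    simp [adjX, gpar] <;> grind

theorem adj_s1 {a c t : ℕ} {y : GX} : adjX (.obj a c t .s1) y ↔
    y = .root ∨ y = .obj a c t .s2 ∨ y = .obj a c t (.mk []) := by
  rcases y with _ | ⟨a', c', t', _ | _ | _ | ⟨i', _ | _⟩ | ⟨_ | ⟨j', l'⟩⟩⟩ <;>
    simp [adjX, gpar, eq_comm]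

theorem fresh {α : Type} (m : List α) (P : α → Prop) (l r : α → ℕ) {A B i : ℕ}
    (h : ∀ p ∈ m, ∀ q ∈ m, P p → P q → l p = l q → r p = r q)
    (hl : ∀ p ∈ m, P p → l p < A ∧ l p ≠ i) (hi : i < A) (hAB : A ≤ B) :
    ∃ i' < B, ∀ p ∈ m, P p → r p ≠ i' := by
  by_contra hc
  push Not at hc
  choose g hg1 hg2 hg3 using hc
  have key : (Finset.univ : Finset (Fin B)).card ≤ ((Finset.range A).erase i).card := by
    apply Finset.card_le_card_of_injOn (fun k : Fin B => l (g k k.2))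
    · intro k _
      have := hl _ (hg1 k k.2) (hg2 k k.2)
      simp [this.1, this.2]
    · intro k _ k' _ e
      have := h _ (hg1 k k.2) _ (hg1 k' k'.2) (hg2 k k.2) (hg2 k' k'.2) e
      rw [hg3, hg3] at this
      exact Fin.ext this
  rw [Finset.card_erase_of_mem (Finset.mem_range.2 hi), Finset.card_range, Finset.card_univ,
    Fintype.card_fin] at key
  omega

theorem fresh' {α : Type} (m : List α) (P : α → Bool) (r : α → ℕ) {B : ℕ}
    (h : m.countP P < B) : ∃ i' < B, ∀ p ∈ m, P p = true → r p ≠ i' := by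
  have h1 : ((m.filter P).map r).toFinset.card < (Finset.range B).card := by
    refine lt_of_le_of_lt (List.toFinset_card_le _) ?_
    rw [List.length_map, ← List.countP_eq_length_filter, Finset.card_range]
    exact h
  obtain ⟨i, hi, hi2⟩ := Finset.exists_mem_notMem_of_card_lt_card h1
  refine ⟨i, Finset.mem_range.1 hi, fun p hp hP e => hi2 ?_⟩
  simp only [List.mem_toFinset, List.mem_map, List.mem_filter]
  exact ⟨p, ⟨hp, hP⟩, e⟩

end Pool.Agent.H785Z.Gad
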