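import Pool.Agent.H785Z.Gad.A

set_option autoImplicit false
set_option linter.unusedVariables false

namespace Pool.Agent.H785Z.Gad

open Pool.Agent.H655Z.TD

variable {F i0 : ℕ} {nL nR : ℕ → ℕ → ℕ} {m : List (GX × GX)}

def OK (F i0 : ℕ) (nL nR : ℕ → ℕ → ℕ) (m : List (GX × GX)) : Prop :=
  ∀ p ∈ m, ok F i0 nL p.1 ∧ ok F i0 nR p.2

theorem OK.sw (h : OK F i0 nL nR m) : OK F i0 nR nL (sw m) :=
  fun p hp => (h _ (mem_sw.1 hp)).symm

theorem OK.cons (h : OK F i0 nL nR m) {x y : GX} (hx : ok F i0 nL x) (hy : ok F i0 nR y) :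
    OK F i0 nL nR ((x, y) :: m) := by
  intro p hp
  rcases List.mem_cons.1 hp with rfl | hp
  · exact ⟨hx, hy⟩
  · exact h p hp

theorem oid_none {x : GX} : oid x = none ↔ x = .root := by cases x <;> simp [oid]

theorem oid_some {x : GX} {a c t : ℕ} : oid x = some (a, c, t) ↔ ∃ P, x = .obj a c t P := by
  cases x with
  | root => simp [oid]
  | obj a' c' t' P => simp [oid]

theorem ext_root (h : Std m) : Std ((.root, .root) :: m) := by
  refine h.cons trivial fun q hq => ⟨?_, fun e => ?_⟩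
  · change none = oid q.1 ↔ none = oid q.2
    rw [eq_comm, oid_none, eq_comm (a := none), oid_none]
    exact (h.1 q hq).root_iff
  · have h1 : q.1 = .root := oid_none.1 e.symm
    have h2 := (h.1 q hq).root_iff.1 h1
    simp [h1, h2]

theorem role_role (P : Part) : role P = role (role P) := by cases P <;> rfl

theorem ext_new (h : Std m) {a c t c' t' : ℕ} (P : Part)
    (h1 : ∀ p ∈ m, oid p.1 ≠ some (a, c, t)) (h2 : ∀ p ∈ m, oid p.2 ≠ some (a, c', t')) :
    Std ((.obj a c t P, .obj a c' t' (role P)) :: m) := by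
  refine h.cons ⟨rfl, role_role P⟩ fun q hq => ⟨?_, fun e => ?_⟩
  · exact ⟨fun e => absurd e.symm (h1 q hq), fun e => absurd e.symm (h2 q hq)⟩
  · exact absurd e.symm (h1 q hq)

theorem okP_role (hi : 0 < i0) {a c c' : ℕ} {P : Part} (h : okP i0 a c P) :
    okP i0 a c' (role P) := by
  cases P <;> simp only [role, okP] at h ⊢
  · omega
  · exact h

theorem fresh_obj (n : ℕ → ℕ → ℕ) (a : ℕ) (h : m.length < n a 1 + n a 2) :
    ∃ c t, c < 3 ∧ t < n a c ∧ ∀ p ∈ m, oid p.2 ≠ some (a, c, t) := by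
  have h0 := List.length_eq_countP_add_countP (fun p : GX × GX => decide (col p.2 = 1)) (l := m)
  by_cases h1 : m.countP (fun p : GX × GX => decide (col p.2 = 1)) < n a 1
  · obtain ⟨t, ht, h2⟩ := fresh' m _ (fun p => tix p.2) h1
    refine ⟨1, t, by norm_num, ht, fun p hp e => ?_⟩
    obtain ⟨P, e⟩ := oid_some.1 e
    exact h2 p hp (by simp [e, col]) (by simp [e, tix])
  · obtain ⟨t, ht, h2⟩ := fresh' m (fun p : GX × GX => decide (¬ decide (col p.2 = 1) = true))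
      (fun p => tix p.2) (B := n a 2) (by omega)
    refine ⟨2, t, by norm_num, ht, fun p hp e => ?_⟩
    obtain ⟨P, e⟩ := oid_some.1 e
    exact h2 p hp (by simp [e, col]) (by simp [e, tix])

def Crit (i0 : ℕ) (m : List (GX × GX)) (x : GX) (o' : ℕ × ℕ × ℕ) : Prop :=
  (∃ i, lid x = some i) ∧ (∀ p ∈ m, oid p.1 = oid x → lid p.1 ≠ lid x) ∧
    ∀ i' < i0 + o'.2.1, ∃ p ∈ m, oid p.2 = some o' ∧ lid p.2 = some i'

theorem lid_none_iff {x y : GX} (h : Sh x y) : lid x = none ↔ lid y = none := by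
  cases x <;> cases y <;> simp only [Sh] at h
  · simp
  · rcases role_eq h.2 with ⟨i, i', e, rfl, rfl⟩ | ⟨rfl, h5⟩
    · simp [lid]
    · rename_i P _ _ _
      cases P <;> simp_all [lid]

theorem ext_touched (h : Std m) (hok : OK F i0 nL nR m) {a c t : ℕ} {P : Part}
    (hx : ok F i0 nL (.obj a c t P)) {q : GX × GX} (hq : q ∈ m) (hqx : oid q.1 = some (a, c, t)) :
    ∃ c' t', oid q.2 = some (a, c', t') ∧
      ((∃ P', ok F i0 nR (.obj a c' t' P') ∧ Std ((.obj a c t P, .obj a c' t' P') :: m)) ∨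
        Crit i0 m (.obj a c t P) (a, c', t')) := by
  obtain ⟨Q, e1⟩ := oid_some.1 hqx
  have hs := h.1 q hq
  have hq2 := (hok q hq).2
  rcases e2 : q.2 with _ | ⟨a', c', t', Q'⟩
  · rw [e1, e2] at hs; exact hs.elim
  rw [e1, e2] at hs
  obtain ⟨rfl, -⟩ := hs
  rw [e2] at hq2
  refine ⟨c', t', rfl, ?_⟩
  have hoid : ∀ r ∈ m, (some (a, c, t) = oid r.1 ↔ some (a, c', t') = oid r.2) := by
    intro r hr
    have := (h.2 q hq r hr).1
    rwa [e1, e2] at this
  by_cases hleg : ∃ i e, P = .leg i e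
  · obtain ⟨i, e, rfl⟩ := hleg
    by_cases ht : ∃ r ∈ m, oid r.1 = some (a, c, t) ∧ lid r.1 = some i
    · obtain ⟨r, hr, hr1, hr2⟩ := ht
      obtain ⟨R', e3⟩ := oid_some.1 ((hoid r hr).1 hr1.symm).symm
      have hl := lid_none_iff (h.1 r hr)
      have hr3 := (hok r hr).2
      rw [e3] at hr3
      rw [e3, hr2] at hl
      obtain ⟨i', e', rfl⟩ : ∃ i' e', R' = .leg i' e' := by
        cases R' <;> simp [lid] at hl ⊢
      refine Or.inl ⟨.leg i' e, ⟨hr3.1, hr3.2.1, hr3.2.2.1, hr3.2.2.2⟩,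
        h.cons ⟨rfl, rfl⟩ fun s hs => ⟨hoid s hs, fun e4 => ?_⟩⟩
      have := (h.2 r hr s hs).2 (hr1.trans e4)
      rw [hr2, e3] at this
      exact this
    · push Not at ht
      by_cases hf : ∃ i' < i0 + c', ∀ p ∈ m, oid p.2 = some (a, c', t') → lid p.2 ≠ some i'
      · obtain ⟨i', hi', hf⟩ := hf
        refine Or.inl ⟨.leg i' e, ⟨hq2.1, hq2.2.1, hq2.2.2.1, hi'⟩,
          h.cons ⟨rfl, rfl⟩ fun s hs => ⟨hoid s hs, fun e4 => ?_⟩⟩
        exact ⟨fun e5 => absurd e5.symm (ht s hs e4.symm),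
          fun e5 => absurd e5.symm (hf s hs ((hoid s hs).1 e4).symm)⟩
      · push Not at hf
        exact Or.inr ⟨⟨i, rfl⟩, fun p hp e => ht p hp e, hf⟩
  · push Not at hleg
    refine Or.inl ⟨P, ⟨hq2.1, hq2.2.1, hq2.2.2.1, ?_⟩,
      h.cons ⟨rfl, rfl⟩ fun s hs => ⟨hoid s hs, fun e4 => ?_⟩⟩
    · have := hx.2.2.2
      cases P <;> simp_all [okP]
    · have h1 : lid (.obj a c t P) = none := by cases P <;> simp_all [lid]
      have h2 : lid (.obj a c' t' P) = none := by cases P <;> simp_all [lid]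
      simp only [h1, h2]
      rw [eq_comm, lid_none_iff (h.1 s hs), eq_comm]

theorem crit_col (h : Std m) (hok : OK F i0 nL nR m) {a c t c' t' : ℕ} {P : Part}
    (hx : ok F i0 nL (.obj a c t P)) {q : GX × GX} (hq : q ∈ m) (hqx : oid q.1 = some (a, c, t))
    (hqy : oid q.2 = some (a, c', t')) (hc : Crit i0 m (.obj a c t P) (a, c', t')) : c' < c := by
  by_contra hn
  obtain ⟨⟨i, hi⟩, h2, h3⟩ := hc
  have hiP : i < i0 + c := by
    have := hx.2.2.2
    cases P <;> simp_all [okP, lid]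
  obtain ⟨i', hi', h4⟩ := fresh m (fun p => oid p.1 = some (a, c, t) ∧ lid p.1 ≠ none)
    (fun p => (lid p.1).getD 0) (fun p => (lid p.2).getD 0) (A := i0 + c) (B := i0 + c') (i := i)
    (fun p hp r hr h5 h6 e => by
      have e1 : lid p.1 = lid r.1 := by
        obtain ⟨u, hu⟩ := Option.ne_none_iff_exists'.1 h5.2
        obtain ⟨w, hw⟩ := Option.ne_none_iff_exists'.1 h6.2
        simp only [hu, hw, Option.getD_some] at e ⊢
        rw [e]
      simp only [((h.2 p hp r hr).2 (h5.1.trans h6.1.symm)).1 e1])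
    (fun p hp h5 => by
      obtain ⟨Q, e⟩ := oid_some.1 h5.1
      have h6 := (hok p hp).1
      have h7 := h2 p hp h5.1
      have h8 := h5.2
      rw [e] at h6 h7 h8 ⊢
      rw [hi] at h7
      have := h6.2.2.2
      cases Q <;> simp_all [okP, lid])
    hiP (by omega)
  obtain ⟨p, hp, h5, h6⟩ := h3 i' hi'
  refine h4 p hp ⟨?_, ?_⟩ (by simp [h6])
  · rw [← hqx]; exact (h.2 p hp q hq).1.2 (h5.trans hqy.symm)
  · rw [Ne, lid_none_iff (h.1 p hp), h6]; simp

theorem isolated (hi : IPI m) {x : GX} (hx : x ≠ .root) (h : ∀ p ∈ m, p.1 ≠ x ∧ ¬ adjX x p.1)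
    {a c t : ℕ} {Q : Part} (hQ : Q ≠ .s1) (hf : ∀ p ∈ m, oid p.2 ≠ some (a, c, t)) :
    IPI ((x, .obj a c t Q) :: m) := by
  refine hi.cons (by simp [hx]) fun q hq => ⟨?_, ?_⟩
  · refine ⟨fun e => absurd e.symm (h q hq).1, fun e => ?_⟩
    exact absurd (by rw [← e]; rfl) (hf q hq)
  · refine ⟨fun e => absurd e (h q hq).2, fun e => ?_⟩
    exfalso
    by_cases hr : q.2 = .root
    · rw [hr, adj_root] at e
      obtain ⟨_, _, _, e⟩ := e
      simp only [GX.obj.injEq] at e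
      exact hQ e.2.2.2
    · exact not_adj_of_oid (x := .obj a c t Q) (by simp) hr (fun e2 => hf q hq e2.symm) e

theorem iso_ans (hi : IPI m) (hlen : m.length < nR 0 1 + nR 0 2) {x : GX} (hx : x ≠ .root)
    (h : ∀ p ∈ m, p.1 ≠ x ∧ ¬ adjX x p.1) : ∃ y, ok F i0 nR y ∧ IPI ((x, y) :: m) := by
  obtain ⟨c, t, h1, h2, h3⟩ := fresh_obj nR 0 hlen
  exact ⟨.obj 0 c t .g, ⟨Nat.zero_le _, h1, h2, trivial⟩, isolated hi hx h (by simp) h3⟩

theorem std_part (h : Std m) {q p : GX × GX} (hq : q ∈ m) (hp : p ∈ m) {a c t c' t' : ℕ}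
    (hq1 : oid q.1 = some (a, c, t)) (hq2 : oid q.2 = some (a, c', t')) {R : Part}
    (hR : ∀ i e, R ≠ .leg i e) : p.1 = .obj a c t R ↔ p.2 = .obj a c' t' R := by
  have h1 := (h.2 p hp q hq).1
  have hs := h.1 p hp
  rw [hq1, hq2] at h1
  constructor
  · intro e
    obtain ⟨R', e'⟩ := oid_some.1 (h1.1 (by rw [e]; rfl))
    rw [e, e'] at hs
    rcases role_eq hs.2 with ⟨i, i', e2, h5, -⟩ | ⟨rfl, -⟩
    · exact absurd h5 (hR _ _)
    · exact e'
  · intro e
    obtain ⟨R', e'⟩ := oid_some.1 (h1.2 (by rw [e]; rfl))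
    rw [e, e'] at hs
    rcases role_eq hs.2 with ⟨i, i', e2, -, h5⟩ | ⟨rfl, -⟩
    · exact absurd h5 (hR _ _)
    · exact e'

theorem s2ans (h : Std m) {q : GX × GX} (hq : q ∈ m) {a c t c' t' i : ℕ}
    (hq1 : oid q.1 = some (a, c, t)) (hq2 : oid q.2 = some (a, c', t'))
    (hu : ∀ p ∈ m, oid p.1 = some (a, c, t) → lid p.1 ≠ some i)
    (hs : ∀ p ∈ m, p.2 ≠ .obj a c' t' .s2 ∧ p.2 ≠ .obj a c' t' .s1) :
    IPI ((.obj a c t (.leg i false), .obj a c' t' .s2) :: m) := by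
  refine h.ipi.cons (by simp) fun p hp => ⟨?_, ?_⟩
  · exact ⟨fun e => absurd (by rw [← e]; rfl) (hu p hp (by rw [← e]; rfl)),
      fun e => absurd e.symm (hs p hp).1⟩
  · simp only [adj_legF, adj_s2]
    rw [std_part h hq hp hq1 hq2 (by simp)]
    refine or_congr Iff.rfl ⟨fun e => ?_, fun e => absurd e (hs p hp).2⟩
    exact absurd (by rw [e]; rfl) (hu p hp (by rw [e]; rfl))

theorem IPI.cons2 {p r : GX × GX} (h1 : IPI (p :: m)) (h2 : IPI (r :: m)) (h : PIp p r) :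
    IPI (p :: r :: m) :=
  h2.cons (h1.1 p List.mem_cons_self) fun q hq => by
    rcases List.mem_cons.1 hq with rfl | hq
    · exact h
    · exact h1.2 p List.mem_cons_self q (List.mem_cons_of_mem _ hq)

theorem pip_far {z z' x y : GX} (hz : z ≠ .root) (hz' : z' ≠ .root) (hx : x ≠ .root)
    (hy : y ≠ .root) (h1 : oid z ≠ oid x) (h2 : oid z' ≠ oid y) : PIp (z, z') (x, y) :=
  ⟨⟨fun e => absurd (congrArg oid e) h1, fun e => absurd (congrArg oid e) h2⟩,
    ⟨fun e => absurd e (not_adj_of_oid hz hx h1), fun e => absurd e (not_adj_of_oid hz' hy h2)⟩⟩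

theorem last_other (hi0 : 0 < i0) (h : Std m) (hok : OK F i0 nL nR m) {x y : GX}
    (hxy : IPI ((x, y) :: m)) (hx : x ≠ .root) (hy : y ≠ .root) (hx1 : ¬ adjX x .root)
    (hy1 : ¬ adjX y .root) (hlen : ∀ a, m.length + 1 < nR a 1 + nR a 2) {z : GX}
    (hz : ok F i0 nL z) (hzx : oid z ≠ oid x)
    (hq : ∀ q ∈ m, oid q.1 = oid z → z ≠ .root → oid q.2 ≠ oid y ∧ col q.1 ≤ col q.2) :
    ∃ z', ok F i0 nR z' ∧ IPI ((z, z') :: (x, y) :: m) := by
  rcases z with _ | ⟨a, c, t, P⟩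
  · refine ⟨.root, trivial, (ext_root h).ipi.cons2 hxy ⟨?_, ?_⟩⟩
    · exact ⟨fun e => absurd e.symm hx, fun e => absurd e.symm hy⟩
    · exact ⟨fun e => absurd (adjX_symm.1 e) hx1, fun e => absurd (adjX_symm.1 e) hy1⟩
  · by_cases ht : ∃ q ∈ m, oid q.1 = some (a, c, t)
    · obtain ⟨q, hqm, hq1⟩ := ht
      obtain ⟨h1, h2⟩ := hq q hqm hq1 (by simp)
      obtain ⟨c', t', hq2, ⟨P', h3, h4⟩ | hc⟩ := ext_touched h hok hz hqm hq1
      · exact ⟨_, h3, h4.ipi.cons2 hxy (pip_far (by simp) (by simp) hx hy hzx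
          (fun e => h1 (hq2.trans e)))⟩
      · have := crit_col h hok hz hqm hq1 hq2 hc
        obtain ⟨_, e1⟩ := oid_some.1 hq1
        obtain ⟨_, e2⟩ := oid_some.1 hq2
        rw [e1, e2] at h2
        simp only [col] at h2
        omega
    · push Not at ht
      obtain ⟨c', t', h1, h2, h3⟩ := fresh_obj (m := (x, y) :: m) nR a (by simpa using hlen a)
      refine ⟨.obj a c' t' (role P), ⟨hz.1, h1, h2, okP_role hi0 hz.2.2.2⟩,
        (ext_new h P ht fun p hp => h3 p (List.mem_cons_of_mem _ hp)).ipi.cons2 hxy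
          (pip_far (by simp) (by simp) hx hy hzx ?_)⟩
      exact fun e => h3 _ List.mem_cons_self e.symm

end Pool.Agent.H785Z.Gad
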