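import Pool.Agent.H785Z.Gad.B

set_option autoImplicit false
set_option linter.unusedVariables false

namespace Pool.Agent.H785Z.Gad

open Pool.Agent.H655Z.TD

variable {F i0 : ℕ} {nL nR : ℕ → ℕ → ℕ} {m : List (GX × GX)}

def Mc (p : GX × GX) : Bool := decide (oid p.1 = none ∨ col p.1 ≠ col p.2)

def Lg (o : ℕ × ℕ × ℕ) (p : GX × GX) : Bool := decide (oid p.2 = some o ∧ lid p.2 ≠ none)

theorem two_le_countP {α : Type} {l : List α} {R : α → Bool} {p q : α} (hp : p ∈ l) (hq : q ∈ l)
    (hne : p ≠ q) (h1 : R p = true) (h2 : R q = true) : 2 ≤ l.countP R := by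
  classical
  rw [List.countP_eq_length_filter]
  refine le_trans ?_ (List.toFinset_card_le _)
  exact Finset.one_lt_card.2 ⟨p, by simp [hp, h1], q, by simp [hq, h2], hne⟩

theorem lid_some {a c t i : ℕ} {P : Part} : lid (.obj a c t P) = some i ↔ ∃ e, P = .leg i e := by
  cases P <;> simp [lid]

theorem lid_none {a c t : ℕ} {P : Part} : lid (.obj a c t P) = none ↔ ∀ j e, P ≠ .leg j e := by
  cases P <;> simp [lid]

theorem role_s1 {P : Part} (h : role .s1 = role P) : P = .s1 := by cases P <;> simp_all [role]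

theorem role_s2 {P : Part} (h : role .s2 = role P) : P = .s2 := by cases P <;> simp_all [role]

theorem col_of_oid {x : GX} {a c t : ℕ} (h : oid x = some (a, c, t)) : col x = c := by
  obtain ⟨P, rfl⟩ := oid_some.1 h; rfl

theorem count_crit (h : Std m) {q : GX × GX} (hq : q ∈ m) {a c t c' t' : ℕ}
    (hq1 : oid q.1 = some (a, c, t)) (hq2 : oid q.2 = some (a, c', t')) (hcc : c' < c) {x : GX}
    (hc : Crit i0 m x (a, c', t')) :
    i0 + c' + m.countP (fun p => Mc p && !Lg (a, c', t') p) ≤ m.countP Mc := by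
  have h1 : i0 + c' ≤ m.countP (Lg (a, c', t')) := by
    by_contra hn
    obtain ⟨i', hi', h2⟩ := fresh' m (Lg (a, c', t')) (fun p => (lid p.2).getD 0) (not_le.1 hn)
    obtain ⟨p, hp, h3, h4⟩ := hc.2.2 i' hi'
    exact h2 p hp (by simp [Lg, h3, h4]) (by simp [h4])
  have h2 := List.countP_eq_countP_filter_add m Mc (Lg (a, c', t'))
  rw [List.countP_filter, List.countP_filter] at h2
  have h3 : m.countP (fun p => Mc p && Lg (a, c', t') p) = m.countP (Lg (a, c', t')) := by
    apply List.countP_congr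
    intro p hp
    simp only [Bool.and_eq_true, and_iff_right_iff_imp]
    intro hl
    simp only [Lg, decide_eq_true_eq] at hl
    have e1 := (h.2 p hp q hq).1.2 (hl.1.trans hq2.symm)
    simp only [Mc, decide_eq_true_eq]
    right
    rw [col_of_oid (e1.trans hq1), col_of_oid hl.1]
    omega
  omega

theorem end1 (h : Std m) (hok : OK F i0 nL nR m) (hlen : m.length < nR 0 1 + nR 0 2)
    {q : GX × GX} (hq : q ∈ m) {a c t c' t' : ℕ} {P : Part}
    (hq1 : oid q.1 = some (a, c, t)) (hq2 : oid q.2 = some (a, c', t')) (hcc : c' < c)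
    (hc : Crit i0 m (.obj a c t P) (a, c', t'))
    (hX : m.countP (fun p => Mc p && !Lg (a, c', t') p) ≤ 1) :
    ∃ y, ok F i0 nR y ∧ IPI ((.obj a c t P, y) :: m) := by
  obtain ⟨⟨i, hi⟩, hu, -⟩ := hc
  obtain ⟨e, rfl⟩ := lid_some.1 hi
  have hu' : ∀ p ∈ m, oid p.1 = some (a, c, t) → lid p.1 ≠ some i := hu
  have hex : ∀ p ∈ m, ∀ R, (∀ i e, R ≠ .leg i e) → p.2 = .obj a c' t' R →
      (Mc p && !Lg (a, c', t') p) = true := by
    intro p hp R hR e1
    have e2 := (std_part h hq hp hq1 hq2 hR).2 e1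
    have : lid p.2 = none := by rw [e1]; exact lid_none.2 hR
    simp only [Mc, Lg, this, e2, Bool.and_eq_true, decide_eq_true_eq]
    rw [e1]
    simp [col]; omega
  by_cases hg : e = false ∧ ∃ p ∈ m, p.1 = .obj a c t .g
  · obtain ⟨rfl, p, hp, hp1⟩ := hg
    have hp2 := (std_part h hq hp hq1 hq2 (by simp)).1 hp1
    obtain ⟨Q', e2⟩ := oid_some.1 hq2
    have ho := (hok q hq).2
    rw [e2] at ho
    refine ⟨.obj a c' t' .s2, ⟨ho.1, ho.2.1, ho.2.2.1, trivial⟩, s2ans h hq hq1 hq2 hu' ?_⟩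
    intro r hr
    constructor <;> intro e3
    all_goals
      have := two_le_countP (R := fun p => Mc p && !Lg (a, c', t') p) hp hr (fun e4 => by rw [e4, e3] at hp2; simp at hp2)
        (hex p hp _ (by simp) hp2) (hex r hr _ (by simp) e3)
      omega
  · refine iso_ans h.ipi hlen (by simp) fun p hp => ⟨fun e1 => ?_, fun e1 => ?_⟩
    · exact hu' p hp (by rw [e1]; rfl) (by rw [e1]; rfl)
    · cases e
      · rcases adj_legF.1 e1 with e2 | e2
        · exact hg ⟨rfl, p, hp, e2⟩
        · exact hu' p hp (by rw [e2]; rfl) (by rw [e2]; rfl)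
      · have e2 := adj_legT.1 e1
        exact hu' p hp (by rw [e2]; rfl) (by rw [e2]; rfl)

theorem backO (h : Std m) (hok : OK F i0 nL nR m)
    {q : GX × GX} (hq : q ∈ m) {a c t c' t' i : ℕ} {e : Bool}
    (hq1 : oid q.1 = some (a, c, t)) (hq2 : oid q.2 = some (a, c', t')) (hcc : c' < c)
    (hc : Crit i0 m (.obj a c t (.leg i e)) (a, c', t')) {P' : Part}
    (hz : ok F i0 nR (.obj a c' t' P')) :
    ∃ P, ok F i0 nL (.obj a c t P) ∧ Std ((.obj a c t P, .obj a c' t' P') :: m) ∧
      ∀ e2, P ≠ .leg i e2 := by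
  have hq' : q.swap ∈ sw m := mem_sw.2 (by simpa using hq)
  obtain ⟨c2, t2, h1, h2⟩ := ext_touched h.sw hok.sw hz hq' hq2
  have h1' : oid q.1 = some (a, c2, t2) := h1
  rw [hq1] at h1'
  simp only [Option.some.injEq, Prod.mk.injEq, true_and] at h1'
  obtain ⟨rfl, rfl⟩ := h1'
  rcases h2 with ⟨P, h3, h4⟩ | h2
  · have h5 := h4.sw
    rw [sw_cons, sw_sw] at h5
    refine ⟨P, h3, h5, ?_⟩
    rintro e2 rfl
    have hs := h5.1 _ List.mem_cons_self
    rcases role_eq hs.2 with ⟨j, i', e3, h6, rfl⟩ | ⟨-, h6⟩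
    · obtain ⟨p, hp, h7, h8⟩ := hc.2.2 i' hz.2.2.2
      have h9 := h5.2 _ List.mem_cons_self p (List.mem_cons_of_mem _ hp)
      have h10 := h9.1.2 h7.symm
      exact hc.2.1 p hp h10.symm ((h9.2 h10).2 h8.symm).symm
    · exact h6 _ _ rfl
  · have := crit_col h.sw hok.sw hz hq' hq2 hq1 h2
    omega

theorem end2 (hi0 : 0 < i0) (h : Std m) (hok : OK F i0 nL nR m)
    (hlenL : ∀ a, m.length + 1 < nL a 1 + nL a 2) (hlenR : ∀ a, m.length + 1 < nR a 1 + nR a 2)
    {q : GX × GX} (hq : q ∈ m) {a c t c' t' : ℕ} {P : Part} (hx : ok F i0 nL (.obj a c t P))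
    (hq1 : oid q.1 = some (a, c, t)) (hq2 : oid q.2 = some (a, c', t')) (hcc : c' < c)
    (hc : Crit i0 m (.obj a c t P) (a, c', t'))
    (hX : m.countP (fun p => Mc p && !Lg (a, c', t') p) = 0) :
    ∃ y, ok F i0 nR y ∧ IPI ((.obj a c t P, y) :: m) ∧
      (∀ z, ok F i0 nL z → ∃ z', ok F i0 nR z' ∧ IPI ((z, z') :: (.obj a c t P, y) :: m)) ∧
      (∀ z', ok F i0 nR z' → ∃ z, ok F i0 nL z ∧ IPI ((z, z') :: (.obj a c t P, y) :: m)) := by
  obtain ⟨i, hi⟩ := hc.1
  obtain ⟨e, rfl⟩ := lid_some.1 hi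
  have hu : ∀ p ∈ m, oid p.1 = some (a, c, t) → lid p.1 ≠ some i := hc.2.1
  have NX : ∀ p ∈ m, (oid p.1 = none ∨ col p.1 ≠ col p.2) →
      oid p.2 = some (a, c', t') ∧ lid p.2 ≠ none := by
    intro p hp h1
    have := List.countP_eq_zero.1 hX p hp
    simpa [Mc, Lg, h1] using this
  have hoid : ∀ p ∈ m, oid p.1 = some (a, c, t) ↔ oid p.2 = some (a, c', t') := by
    intro p hp
    have := (h.2 p hp q hq).1
    rwa [hq1, hq2] at this
  have nr1 : ∀ p ∈ m, p.1 ≠ .root := by
    intro p hp e1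
    have := (NX p hp (Or.inl (oid_none.2 e1))).1
    rw [(h.1 p hp).root_iff.1 e1] at this
    simp [oid] at this
  have nr2 : ∀ p ∈ m, p.2 ≠ .root := fun p hp e1 => nr1 p hp ((h.1 p hp).root_iff.2 e1)
  have in2 : ∀ p ∈ m, oid p.2 = some (a, c', t') → lid p.2 ≠ none := by
    intro p hp e1
    refine (NX p hp (Or.inr ?_)).2
    rw [col_of_oid e1, col_of_oid ((hoid p hp).2 e1)]
    omega
  have in1 : ∀ p ∈ m, oid p.1 = some (a, c, t) → lid p.1 ≠ none := by
    intro p hp e1
    rw [Ne, lid_none_iff (h.1 p hp)]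
    exact in2 p hp ((hoid p hp).1 e1)
  have oth : ∀ p ∈ m, oid p.1 ≠ some (a, c, t) → col p.1 = col p.2 := by
    intro p hp e1
    by_contra e2
    exact e1 ((hoid p hp).2 (NX p hp (Or.inr e2)).1)
  have np1 : ∀ p ∈ m, ∀ R, (∀ j e, R = .leg j e → j = i) → p.1 ≠ .obj a c t R := by
    intro p hp R hR e1
    have h1 := in1 p hp (by rw [e1]; rfl)
    have h2 := hu p hp (by rw [e1]; rfl)
    rw [e1] at h1 h2
    refine h1 (lid_none.2 fun j e e3 => h2 (lid_some.2 ⟨e, ?_⟩))
    rw [← hR j e e3]; exact e3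
  have np2 : ∀ p ∈ m, ∀ R, (∀ j e, R ≠ .leg j e) → p.2 ≠ .obj a c' t' R := by
    intro p hp R hR e1
    have h1 := in2 p hp (by rw [e1]; rfl)
    rw [e1] at h1
    exact h1 (lid_none.2 hR)
  obtain ⟨Q', e2⟩ := oid_some.1 hq2
  have ho := (hok q hq).2
  rw [e2] at ho
  have hxi : ∀ e2, ok F i0 nL (.obj a c t (.leg i e2)) := fun e2 => hx
  -- a new leg other than the critical one is isolated
  have newleg : ∀ y P2, IPI ((.obj a c t (.leg i e), y) :: m) → (∀ e2, P2 ≠ .leg i e2) →
      Crit i0 m (.obj a c t P2) (a, c', t') →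
      ∃ z', ok F i0 nR z' ∧ IPI ((.obj a c t P2, z') :: (.obj a c t (.leg i e), y) :: m) := by
    intro y P2 hy hP2 hc2
    obtain ⟨i2, hi2⟩ := hc2.1
    obtain ⟨e2, rfl⟩ := lid_some.1 hi2
    have hne : i2 ≠ i := fun e3 => hP2 e2 (by rw [e3])
    have hu2 : ∀ p ∈ m, oid p.1 = some (a, c, t) → lid p.1 ≠ some i2 := hc2.2.1
    refine iso_ans hy (by simpa using hlenR 0) (by simp) fun p hp => ?_
    rcases List.mem_cons.1 hp with rfl | hp
    · cases e2 <;> simp [adj_legF, adj_legT, hne.symm]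
    · refine ⟨fun e1 => hu2 p hp (by rw [e1]; rfl) (by rw [e1]; rfl), fun e1 => ?_⟩
      cases e2
      · rcases adj_legF.1 e1 with e3 | e3
        · exact np1 p hp _ (by simp) e3
        · exact hu2 p hp (by rw [e3]; rfl) (by rw [e3]; rfl)
      · have e3 := adj_legT.1 e1
        exact hu2 p hp (by rw [e3]; rfl) (by rw [e3]; rfl)
  have touch : ∀ P2, ok F i0 nL (.obj a c t P2) →
      (∃ P', ok F i0 nR (.obj a c' t' P') ∧ Std ((.obj a c t P2, .obj a c' t' P') :: m)) ∨
        Crit i0 m (.obj a c t P2) (a, c', t') := by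
    intro P2 hz
    obtain ⟨c2, t2, h1, h2⟩ := ext_touched h hok hz hq hq1
    rw [hq2] at h1
    simp only [Option.some.injEq, Prod.mk.injEq, true_and] at h1
    obtain ⟨rfl, rfl⟩ := h1
    exact h2
  cases e
  · -- the answer is `s2`
    have hy := s2ans h hq hq1 hq2 hu fun p hp => ⟨np2 p hp _ (by simp), np2 p hp _ (by simp)⟩
    have hs1 : IPI ((.obj a c t (.leg i true), .obj a c' t' .s1) ::
        (.obj a c t (.leg i false), .obj a c' t' .s2) :: m) := by
      refine hy.cons (by simp) fun p hp => ?_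
      rcases List.mem_cons.1 hp with rfl | hp
      · exact ⟨by simp, by simp [adj_legT, adj_s1]⟩
      · refine ⟨⟨fun e1 => absurd e1.symm (np1 p hp _ (by simp)),
          fun e1 => absurd e1.symm (np2 p hp _ (by simp))⟩, ?_⟩
        simp only [adj_legT, adj_s1]
        exact ⟨fun e1 => absurd e1 (np1 p hp _ (by simp)), fun e1 => by
          rcases e1 with e1 | e1 | e1
          · exact absurd e1 (nr2 p hp)
          · exact absurd e1 (np2 p hp _ (by simp))
          · exact absurd e1 (np2 p hp _ (by simp))⟩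
    have roles : ∀ P2 P', role P2 = role P' → P2 ≠ .s1 → P2 ≠ .s2 → (∀ e2, P2 ≠ .leg i e2) →
        PIp (.obj a c t P2, .obj a c' t' P') (.obj a c t (.leg i false), .obj a c' t' .s2) := by
      intro P2 P' hr h1 h2 h3
      refine PIp.symm ⟨?_, ?_⟩
      · rcases role_eq hr with ⟨j, j', e3, rfl, rfl⟩ | ⟨rfl, -⟩
        · simpa using (h3 false).symm
        · simp [h2.symm, (h3 false).symm]
      · simp only [adj_legF, adj_s2]
        rcases role_eq hr with ⟨j, j', e3, rfl, rfl⟩ | ⟨rfl, -⟩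
        · simpa using h3 true
        · simp [h1, h3 true]
    refine ⟨.obj a c' t' .s2, ⟨ho.1, ho.2.1, ho.2.2.1, trivial⟩, hy, fun z hz => ?_,
      fun z' hz' => ?_⟩
    · by_cases hzo : oid z = some (a, c, t)
      · obtain ⟨P2, rfl⟩ := oid_some.1 hzo
        by_cases h1 : P2 = .leg i false
        · subst h1
          exact ⟨.obj a c' t' .s2, ⟨ho.1, ho.2.1, ho.2.2.1, trivial⟩, hy.dup List.mem_cons_self⟩
        by_cases h2 : P2 = .leg i true
        · exact ⟨.obj a c' t' .s1, ⟨ho.1, ho.2.1, ho.2.2.1, trivial⟩, h2 ▸ hs1⟩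
        have h12 : ∀ e2, P2 ≠ .leg i e2 := fun e2 => by cases e2 <;> assumption
        by_cases h3 : P2 = .s1 ∨ P2 = .s2
        · refine iso_ans hy (by simpa using hlenR 0) (by simp) fun p hp => ?_
          rcases List.mem_cons.1 hp with rfl | hp
          · rcases h3 with rfl | rfl <;> simp [adj_s1, adj_s2]
          · rcases h3 with rfl | rfl
            · refine ⟨np1 p hp _ (by simp), fun e1 => ?_⟩
              rcases adj_s1.1 e1 with e1 | e1 | e1
              · exact nr1 p hp e1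
              · exact np1 p hp _ (by simp) e1
              · exact np1 p hp _ (by simp) e1
            · refine ⟨np1 p hp _ (by simp), fun e1 => ?_⟩
              rcases adj_s2.1 e1 with e1 | e1 <;> exact np1 p hp _ (by simp) e1
        · push Not at h3
          rcases touch P2 hz with ⟨P', h4, h5⟩ | h4
          · exact ⟨_, h4, h5.ipi.cons2 hy
              (roles P2 P' (h5.1 _ List.mem_cons_self).2 h3.1 h3.2 h12)⟩
          · exact newleg _ P2 hy h12 h4
      · refine last_other hi0 h hok hy (by simp) (by simp) (by simp [adj_root])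
          (by simp [adj_root]) hlenR hz hzo fun p hp e1 _ => ⟨fun e3 => ?_, ?_⟩
        · exact hzo (e1 ▸ (hoid p hp).2 e3)
        · exact (oth p hp (e1 ▸ hzo)).le
    · by_cases hzo : oid z' = some (a, c', t')
      · obtain ⟨P', rfl⟩ := oid_some.1 hzo
        by_cases h1 : P' = .s2
        · exact ⟨_, hxi false, h1 ▸ hy.dup List.mem_cons_self⟩
        by_cases h2 : P' = .s1
        · exact ⟨_, hxi true, h2 ▸ hs1⟩
        obtain ⟨P2, h3, h4, h5⟩ := backO h hok hq hq1 hq2 hcc hc hz'
        have hr := (h4.1 _ List.mem_cons_self).2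
        refine ⟨_, h3, h4.ipi.cons2 hy (roles P2 P' hr ?_ ?_ h5)⟩
        · rintro rfl; exact h2 (role_s1 hr)
        · rintro rfl; exact h1 (role_s2 hr)
      · obtain ⟨z, h1, h2⟩ := last_other hi0 h.sw hok.sw hy.sw (by simp) (by simp)
          (by simp [adj_root]) (by simp [adj_root]) (by simpa [length_sw] using hlenL) hz' hzo
          fun p hp e1 _ => by
            have hp' := mem_sw.1 hp
            have h3 : oid p.2 ≠ some (a, c, t) := fun e3 => hzo (e1 ▸ (hoid _ hp').1 e3)
            exact ⟨h3, (oth _ hp' h3).ge⟩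
        exact ⟨z, h1, IPI.of_sw h2⟩
  · -- the answer is the end of a leg of an untouched object
    obtain ⟨c2, t2, f1, f2, f3⟩ := fresh_obj (m := m) nR a (by have := hlenR a; omega)
    have oky : ∀ e2, ok F i0 nR (.obj a c2 t2 (.leg 0 e2)) := fun e2 =>
      ⟨ho.1, f1, f2, by simp only [okP]; omega⟩
    have hne : some (a, c', t') ≠ some (a, c2, t2) := fun e1 => f3 q hq (hq2.trans e1)
    have hy : IPI ((.obj a c t (.leg i true), .obj a c2 t2 (.leg 0 true)) :: m) :=
      isolated h.ipi (by simp) (fun p hp => ⟨np1 p hp _ (by simp),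
        fun e1 => np1 p hp _ (by simp) (adj_legT.1 e1)⟩) (by simp) f3
    have hl : IPI ((.obj a c t (.leg i false), .obj a c2 t2 (.leg 0 false)) ::
        (.obj a c t (.leg i true), .obj a c2 t2 (.leg 0 true)) :: m) := by
      refine IPI.cons2 (isolated h.ipi (by simp) (fun p hp => ⟨np1 p hp _ (by simp),
        fun e1 => ?_⟩) (by simp) f3) hy ⟨by simp, by simp [adj_legF]⟩
      rcases adj_legF.1 e1 with e1 | e1 <;> exact np1 p hp _ (by simp) e1
    have far : ∀ P2 P', (∀ e2, P2 ≠ .leg i e2) →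
        PIp (.obj a c t P2, .obj a c' t' P')
          (.obj a c t (.leg i true), .obj a c2 t2 (.leg 0 true)) := by
      intro P2 P' h3
      refine PIp.symm ⟨⟨fun e1 => ?_, fun e1 => absurd (congrArg oid e1).symm hne⟩,
        ⟨fun e1 => ?_, fun e1 => absurd e1 (not_adj_of_oid (by simp) (by simp) hne.symm)⟩⟩
      · simp only [GX.obj.injEq, true_and] at e1; exact absurd e1.symm (h3 _)
      · have := adj_legT.1 e1
        simp only [GX.obj.injEq, true_and] at this; exact absurd this (h3 _)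
    refine ⟨_, oky true, hy, fun z hz => ?_, fun z' hz' => ?_⟩
    · by_cases hzo : oid z = some (a, c, t)
      · obtain ⟨P2, rfl⟩ := oid_some.1 hzo
        by_cases h1 : P2 = .leg i true
        · exact ⟨_, oky true, h1 ▸ hy.dup List.mem_cons_self⟩
        by_cases h2 : P2 = .leg i false
        · exact ⟨_, oky false, h2 ▸ hl⟩
        have h12 : ∀ e2, P2 ≠ .leg i e2 := fun e2 => by cases e2 <;> assumption
        rcases touch P2 hz with ⟨P', h4, h5⟩ | h4
        · exact ⟨_, h4, h5.ipi.cons2 hy (far P2 P' h12)⟩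
        · exact newleg _ P2 hy h12 h4
      · exact last_other hi0 h hok hy (by simp) (by simp) (by simp [adj_root])
          (by simp [adj_root]) hlenR hz hzo fun p hp e1 _ =>
            ⟨f3 p hp, (oth p hp (e1 ▸ hzo)).le⟩
    · by_cases hzo2 : oid z' = some (a, c2, t2)
      · obtain ⟨P', rfl⟩ := oid_some.1 hzo2
        by_cases h1 : P' = .leg 0 true
        · exact ⟨_, hxi true, h1 ▸ hy.dup List.mem_cons_self⟩
        by_cases h2 : P' = .leg 0 false
        · exact ⟨_, hxi false, h2 ▸ hl⟩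
        obtain ⟨z, h3, h4⟩ := iso_ans (F := F) (i0 := i0) (nR := nL) hy.sw
          (by simpa [length_sw] using hlenL 0) (x := .obj a c2 t2 P') (by simp) fun p hp => by
            rw [sw_cons] at hp
            rcases List.mem_cons.1 hp with rfl | hp
            · refine ⟨by simpa using fun e1 => h1 e1.symm, fun e1 => ?_⟩
              have := adj_legT.1 (adjX_symm.1 e1)
              simp only [GX.obj.injEq, true_and] at this
              exact h2 this
            · have hp' := mem_sw.1 hp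
              have h5 : oid p.1 ≠ some (a, c2, t2) := f3 _ hp'
              exact ⟨fun e1 => h5 (by rw [e1]; rfl),
                not_adj_of_oid (by simp) (nr2 _ hp') fun e1 => h5 e1.symm⟩
        exact ⟨z, h3, IPI.of_sw h4⟩
      by_cases hzo : oid z' = some (a, c', t')
      · obtain ⟨P', rfl⟩ := oid_some.1 hzo
        obtain ⟨P2, h3, h4, h5⟩ := backO h hok hq hq1 hq2 hcc hc hz'
        exact ⟨_, h3, h4.ipi.cons2 hy (far P2 P' h5)⟩
      · obtain ⟨z, h1, h2⟩ := last_other hi0 h.sw hok.sw hy.sw (by simp) (by simp)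
          (by simp [adj_root]) (by simp [adj_root]) (by simpa [length_sw] using hlenL) hz' hzo2
          fun p hp e1 _ => by
            have hp' := mem_sw.1 hp
            have h3 : oid p.2 ≠ some (a, c, t) := fun e3 => hzo (e1 ▸ (hoid _ hp').1 e3)
            exact ⟨h3, (oth _ hp' h3).ge⟩
        exact ⟨z, h1, IPI.of_sw h2⟩

end Pool.Agent.H785Z.Gad
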